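import Mathlib

/-!
# Stable multi-matchings: the deterministic part

A configuration of points `x i`, `i : ι`, on the line with numbers of stubs `D i`.
-/

set_option autoImplicit false

namespace Pool.Agent.Helper98.MM

open Set Filter Topology

variable {ι : Type}

/-- `G` is a stable multi-matching of the points `x i` with numbers of stubs `D i`: every point
`i` has degree exactly `D i`, and any two distinct points `i`, `j` are joined by an edge or one of
them has no incident edge of length greater than `|x i - x j|`. -/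
structure IsStableMultiMatching (x : ι → ℝ) (D : ι → ℕ) (G : SimpleGraph ι) : Prop where
  degree : ∀ i, (G.neighborSet i).encard = D i
  stable : ∀ i j, i ≠ j → G.Adj i j ∨ (∀ k, G.Adj i k → |x i - x k| ≤ |x i - x j|) ∨
    (∀ k, G.Adj j k → |x j - x k| ≤ |x i - x j|)

/-- the point `i` has all its stubs used by edges of length at most `r` -/
def Full (x : ι → ℝ) (D : ι → ℕ) (G : SimpleGraph ι) (i : ι) (r : ℝ) : Prop :=
  (D i : ℕ∞) ≤ {k | G.Adj i k ∧ |x i - x k| ≤ r}.encard

theorem Full.mono {x : ι → ℝ} {D : ι → ℕ} {G : SimpleGraph ι} {i : ι} {r s : ℝ}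
    (h : Full x D G i r) (hrs : r ≤ s) : Full x D G i s :=
  le_trans h (Set.encard_le_encard fun _ hk => ⟨hk.1, hk.2.trans hrs⟩)

/-- degrees at most `D`, and stability in the strong sense -/
structure Weak (x : ι → ℝ) (D : ι → ℕ) (G : SimpleGraph ι) : Prop where
  deg_le : ∀ i, (G.neighborSet i).encard ≤ D i
  stab : ∀ i j, i ≠ j → ¬ G.Adj i j → Full x D G i |x i - x j| ∨ Full x D G j |x i - x j|

variable {x : ι → ℝ} {D : ι → ℕ} {G : SimpleGraph ι}

theorem Weak.full_all (hG : Weak x D G) {i : ι} {r : ℝ} (h : Full x D G i r) {k : ι}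
    (hk : G.Adj i k) : |x i - x k| ≤ r := by
  have hsub : {k | G.Adj i k ∧ |x i - x k| ≤ r} ⊆ G.neighborSet i := fun k hk => hk.1
  have hfin : {k | G.Adj i k ∧ |x i - x k| ≤ r}.Finite := by
    have h1 : (G.neighborSet i).Finite := by
      rw [← Set.encard_lt_top_iff]
      exact lt_of_le_of_lt (hG.deg_le i) (ENat.natCast_lt_top _)
    exact h1.subset hsub
  have heq : {k | G.Adj i k ∧ |x i - x k| ≤ r} = G.neighborSet i :=
    hfin.eq_of_subset_of_encard_le hsub ((hG.deg_le i).trans h)
  have hk' : k ∈ G.neighborSet i := hk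
  rw [← heq] at hk'
  exact hk'.2

theorem IsStableMultiMatching.weak (hG : IsStableMultiMatching x D G) : Weak x D G := by
  refine ⟨fun i => (hG.degree i).le, fun i j hij hadj => ?_⟩
  rcases hG.stable i j hij with h | h | h
  · exact absurd h hadj
  · left
    unfold Full
    rw [← hG.degree i]
    exact Set.encard_le_encard fun k hk => ⟨hk, h k hk⟩
  · right
    unfold Full
    rw [← hG.degree j]
    exact Set.encard_le_encard fun k hk => ⟨hk, h k hk⟩

theorem Weak.stable (hG : Weak x D G) (hd : ∀ i, (D i : ℕ∞) ≤ (G.neighborSet i).encard) :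
    IsStableMultiMatching x D G := by
  refine ⟨fun i => le_antisymm (hG.deg_le i) (hd i), fun i j hij => ?_⟩
  by_cases h : G.Adj i j
  · exact Or.inl h
  · rcases hG.stab i j hij h with h1 | h1
    · exact Or.inr (Or.inl fun k hk => hG.full_all h1 hk)
    · exact Or.inr (Or.inr fun k hk => hG.full_all h1 hk)

/-- The configuration is good at the scale `2 ^ J`, with threshold `m`: among the points of the
window `|x| ≤ 5 * 2 ^ J` fewer than `m` have at least `m` stubs, and any two points of the window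
are at distance more than `2 ^ (- 2 J)`. -/
structure Good (x : ι → ℝ) (D : ι → ℕ) (J m : ℕ) : Prop where
  pos : 1 ≤ m
  many : ∀ s : Finset ι, (∀ i ∈ s, |x i| ≤ 5 * 2 ^ J) → (∀ i ∈ s, m ≤ D i) → s.card < m
  sep : ∀ i j, i ≠ j → |x i| ≤ 5 * 2 ^ J → |x j| ≤ 5 * 2 ^ J →
    (2 : ℝ) ^ (-(2 * (J : ℤ))) < |x i - x j|

theorem Weak.not_full (hG : Weak x D G) {J m : ℕ} (hJ : Good x D J m) {v : ι}
    (hv : |x v| ≤ 2 ^ J) (hD : 2 * (3 * J + 2) * m ≤ D v) : ¬ Full x D G v (2 ^ (J + 2)) := by
  classical
  intro hfull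
  set N : Set ι := {k | G.Adj v k ∧ |x v - x k| ≤ 2 ^ (J + 2)} with hN
  have hNfin : N.Finite := by
    have h1 : (G.neighborSet v).Finite := by
      rw [← Set.encard_lt_top_iff]
      exact lt_of_le_of_lt (hG.deg_le v) (ENat.natCast_lt_top _)
    exact h1.subset fun k hk => hk.1
  set s : Finset ι := hNfin.toFinset with hs
  have hmem : ∀ k, k ∈ s ↔ G.Adj v k ∧ |x v - x k| ≤ 2 ^ (J + 2) := by
    intro k
    rw [hs, Set.Finite.mem_toFinset, hN, Set.mem_ofPred_eq]
  have hcard : D v ≤ s.card := by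
    have h1 : (D v : ℕ∞) ≤ N.encard := hfull
    rw [hNfin.encard_eq_coe_toFinset_card] at h1
    exact_mod_cast h1
  have hreg : ∀ k ∈ s, |x k| ≤ 5 * 2 ^ J := by
    intro k hk
    have h1 := ((hmem k).1 hk).2
    have h2 : |x k| ≤ |x v| + |x v - x k| := by
      have := abs_sub_abs_le_abs_sub (x k) (x v)
      rw [abs_sub_comm] at this
      linarith
    have h3 : (2 : ℝ) ^ (J + 2) = 4 * 2 ^ J := by ring
    rw [h3] at h1
    linarith
  have hvreg : |x v| ≤ 5 * 2 ^ J := by
    have : (0 : ℝ) < 2 ^ J := by positivity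
    linarith
  -- the classes
  set t : Finset (Bool × ℤ) := (Finset.univ : Finset Bool) ×ˢ
    Finset.Icc (-(2 * (J : ℤ)) + 1) (J + 2) with ht
  set f : ι → Bool × ℤ := fun k => (decide (x v < x k), Int.clog 2 |x v - x k|) with hf
  have hmaps : ∀ k ∈ s, f k ∈ t := by
    intro k hk
    obtain ⟨h1, h2⟩ := (hmem k).1 hk
    have h3 := hJ.sep v k h1.ne hvreg (hreg k hk)
    have h4 : 0 < |x v - x k| := lt_trans (by positivity) h3
    rw [ht, Finset.mem_product, Finset.mem_Icc]
    refine ⟨Finset.mem_univ _, ?_, ?_⟩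
    · change -(2 * (J : ℤ)) + 1 ≤ Int.clog 2 |x v - x k|
      rw [Int.add_one_le_iff]
      by_contra hcon
      push Not at hcon
      have h5 := Int.self_le_zpow_clog (b := 2) one_lt_two |x v - x k|
      have h6 : ((2 : ℕ) : ℝ) ^ (Int.clog 2 |x v - x k|) ≤ ((2 : ℕ) : ℝ) ^ (-(2 * (J : ℤ))) :=
        zpow_le_zpow_right₀ (by norm_num) hcon
      push_cast at h5 h6
      linarith
    · change Int.clog 2 |x v - x k| ≤ (J : ℤ) + 2
      rw [← Int.le_zpow_iff_clog_le one_lt_two h4]
      have : ((2 : ℕ) : ℝ) ^ ((J : ℤ) + 2) = 2 ^ (J + 2) := by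
        push_cast
        rw [show (J : ℤ) + 2 = ((J + 2 : ℕ) : ℤ) by push_cast; ring, zpow_natCast]
      rw [this]
      exact h2
  have htcard : t.card = 2 * (3 * J + 2) := by
    rw [ht, Finset.card_product, Finset.card_univ, Fintype.card_bool, Int.card_Icc]
    congr 1
    omega
  have htne : t.Nonempty := by
    rw [← Finset.card_pos, htcard]
    omega
  obtain ⟨y, -, hy⟩ := Finset.exists_le_card_fiber_of_mul_le_card_of_maps_to hmaps htne
    (n := m) (by rw [htcard]; exact hD.trans hcard)
  set C : Finset ι := s.filter (fun k => f k = y) with hC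
  -- the class is a clique
  have hdist : ∀ k ∈ C, ∀ k' ∈ C, k ≠ k' → |x k - x k'| < |x v - x k| := by
    intro k hk k' hk' hkk
    rw [hC, Finset.mem_filter] at hk hk'
    obtain ⟨hks, hfk⟩ := hk
    obtain ⟨hks', hfk'⟩ := hk'
    have h1 := (hmem k).1 hks
    have h1' := (hmem k').1 hks'
    have hp : 0 < |x v - x k| := lt_trans (by positivity) (hJ.sep v k h1.1.ne hvreg (hreg k hks))
    have hp' : 0 < |x v - x k'| :=
      lt_trans (by positivity) (hJ.sep v k' h1'.1.ne hvreg (hreg k' hks'))
    have hside : decide (x v < x k) = decide (x v < x k') := by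
      have := congrArg Prod.fst (hfk.trans hfk'.symm)
      simpa [hf] using this
    have hscale : Int.clog 2 |x v - x k| = Int.clog 2 |x v - x k'| := by
      have := congrArg Prod.snd (hfk.trans hfk'.symm)
      simpa [hf] using this
    set e := Int.clog 2 |x v - x k| with he
    have hu : |x v - x k| ≤ (2 : ℝ) ^ e := by
      have := Int.self_le_zpow_clog (b := 2) one_lt_two |x v - x k|
      push_cast at this
      exact this
    have hu' : |x v - x k'| ≤ (2 : ℝ) ^ e := by
      have := Int.self_le_zpow_clog (b := 2) one_lt_two |x v - x k'|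
      push_cast at this
      rw [hscale]
      exact this
    have hl : (2 : ℝ) ^ (e - 1) < |x v - x k| := by
      have := Int.zpow_pred_clog_lt_self (b := 2) one_lt_two hp
      push_cast at this
      exact this
    have hl' : (2 : ℝ) ^ (e - 1) < |x v - x k'| := by
      have := Int.zpow_pred_clog_lt_self (b := 2) one_lt_two hp'
      push_cast at this
      rw [hscale]
      exact this
    have h2 : (2 : ℝ) ^ e = 2 * 2 ^ (e - 1) := by
      rw [zpow_sub_one₀ (by norm_num)]
      ring
    rw [h2] at hu hu'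
    by_cases hlt : x v < x k
    · have hlt' : x v < x k' := by
        have : decide (x v < x k') = true := by rw [← hside]; exact decide_eq_true hlt
        exact of_decide_eq_true this
      rw [abs_sub_comm, abs_of_pos (by linarith)] at hu hl
      rw [abs_sub_comm, abs_of_pos (by linarith)] at hu' hl'
      rw [abs_sub_comm (x v), abs_of_pos (by linarith : 0 < x k - x v), abs_lt]
      constructor <;> linarith
    · have hlt' : ¬ x v < x k' := by
        intro h
        have : decide (x v < x k) = true := by rw [hside]; exact decide_eq_true h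
        exact hlt (of_decide_eq_true this)
      rw [abs_of_nonneg (by linarith)] at hu hl
      rw [abs_of_nonneg (by linarith)] at hu' hl'
      rw [abs_of_nonneg (by linarith : 0 ≤ x v - x k), abs_lt]
      constructor <;> linarith
  have hadjv : ∀ k ∈ C, G.Adj v k := by
    intro k hk
    rw [hC, Finset.mem_filter] at hk
    exact ((hmem k).1 hk.1).1
  have hclique : ∀ k ∈ C, ∀ k' ∈ C, k ≠ k' → G.Adj k k' := by
    intro k hk k' hk' hkk
    by_contra hna
    rcases hG.stab k k' hkk hna with h | h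
    · have h1 := hG.full_all h (hadjv k hk).symm
      have h2 := hdist k hk k' hk' hkk
      rw [abs_sub_comm (x k) (x v)] at h1
      linarith
    · have h1 := hG.full_all h (hadjv k' hk').symm
      have h2 := hdist k' hk' k hk hkk.symm
      rw [abs_sub_comm (x k') (x v)] at h1
      rw [abs_sub_comm (x k') (x k)] at h2
      linarith
  have hdeg : ∀ k ∈ C, m ≤ D k := by
    intro k hk
    have hvC : v ∉ C.erase k := by
      intro h
      exact (hadjv v (Finset.mem_of_mem_erase h)).ne rfl
    have h1 : ((insert v (C.erase k) : Finset ι) : Set ι) ⊆ G.neighborSet k := by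
      intro z hz
      rw [Finset.mem_coe, Finset.mem_insert] at hz
      rcases hz with rfl | hz
      · exact (hadjv k hk).symm
      · exact hclique k hk z (Finset.mem_of_mem_erase hz) (Finset.ne_of_mem_erase hz).symm
    have h2 := (Set.encard_le_encard h1).trans (hG.deg_le k)
    rw [Set.encard_coe_eq_coe_finsetCard, Finset.card_insert_of_notMem hvC,
      Finset.card_erase_of_mem hk] at h2
    have h3 : 0 < C.card := Finset.card_pos.2 ⟨k, hk⟩
    have h4 : C.card - 1 + 1 ≤ D k := by exact_mod_cast h2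
    omega
  have hlt := hJ.many C (fun k hk => hreg k (Finset.mem_filter.1 hk).1) hdeg
  omega

/-- The configuration is good at all large scales, and there is a point with many stubs. -/
def Nice (x : ι → ℝ) (D : ι → ℕ) : Prop :=
  ∃ J₀ : ℕ, ∀ J, J₀ ≤ J → ∃ m : ℕ, Good x D J m ∧ ∃ v : ι, |x v| ≤ 2 ^ J ∧
    2 * (3 * J + 2) * m ≤ D v

/-- The good points. -/
theorem Nice.choose (h : Nice x D) : ∃ (J₀ : ℕ) (v : ℕ → ι), ∀ J, J₀ ≤ J → |x (v J)| ≤ 2 ^ J ∧
    J ≤ D (v J) ∧ ∀ G : SimpleGraph ι, Weak x D G → ¬ Full x D G (v J) (2 ^ (J + 2)) := by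
  classical
  obtain ⟨J₀, h⟩ := h
  have h' : ∀ J, ∃ v : ι, J₀ ≤ J → |x v| ≤ 2 ^ J ∧
    J ≤ D v ∧ ∀ G : SimpleGraph ι, Weak x D G → ¬ Full x D G v (2 ^ (J + 2)) := by
    intro J
    by_cases hJ : J₀ ≤ J
    · obtain ⟨m, hm, v, hv, hD⟩ := h J hJ
      refine ⟨v, fun _ => ⟨hv, ?_, fun G hG => hG.not_full hm hv hD⟩⟩
      have := hm.pos
      nlinarith
    · obtain ⟨m, hm, v, hv, hD⟩ := h J₀ le_rfl
      exact ⟨v, fun h => absurd h hJ⟩
  choose v hv using h'
  exact ⟨J₀, v, hv⟩

/-- An infinite set of points of a sequence along which `D` is unbounded. -/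
theorem infinite_of_unbounded {v : ℕ → ι} {J₀ : ℕ} (h : ∀ J, J₀ ≤ J → J ≤ D (v J)) {S : Set ι}
    {J₁ : ℕ} (hS : ∀ J, J₁ ≤ J → v J ∈ S) : S.Infinite := by
  intro hfin
  obtain ⟨B, hB⟩ := (hfin.image D).bddAbove
  have h1 := hB (Set.mem_image_of_mem D (hS (max (B + 1) (max J₀ J₁)) (by omega)))
  have h2 := h (max (B + 1) (max J₀ J₁)) (by omega)
  omega

theorem Weak.degree (hG : Weak x D G) (h : Nice x D) (i : ι) :
    (D i : ℕ∞) ≤ (G.neighborSet i).encard := by
  obtain ⟨J₀, v, hv⟩ := h.choose
  by_contra hcon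
  have hnf : ∀ r, ¬ Full x D G i r := fun r hr =>
    hcon (hr.trans (Set.encard_le_encard fun _ hk => hk.1))
  obtain ⟨K, hK⟩ := pow_unbounded_of_one_lt |x i| (one_lt_two : (1 : ℝ) < 2)
  have hadj : ∀ J, max (max J₀ K) (D i + 1) ≤ J → v J ∈ G.neighborSet i := by
    intro J hJ
    obtain ⟨h1, h2, h3⟩ := hv J (by omega)
    have hne : i ≠ v J := by
      intro h
      rw [← h] at h2
      omega
    by_contra hna
    rcases hG.stab i (v J) hne hna with h | h
    · exact hnf _ h
    · refine h3 G hG (h.mono ?_)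
      have h4 : |x i - x (v J)| ≤ |x i| + |x (v J)| := abs_sub _ _
      have h5 : (2 : ℝ) ^ K ≤ 2 ^ J := pow_le_pow_right₀ (by norm_num) (by omega)
      have h6 : (2 : ℝ) ^ (J + 2) = 4 * 2 ^ J := by ring
      have h7 : (0 : ℝ) < 2 ^ J := by positivity
      rw [h6]
      linarith
  have hinf : (G.neighborSet i).Infinite := infinite_of_unbounded (fun J hJ => (hv J hJ).2.1) hadj
  rw [hinf.encard_eq] at hcon
  exact hcon le_top

theorem Weak.infinite_component (hG : Weak x D G) (h : Nice x D) :
    ∃ c : G.ConnectedComponent, c.supp.Infinite := by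
  obtain ⟨J₀, v, hv⟩ := h.choose
  refine ⟨G.connectedComponentMk (v J₀), ?_⟩
  have hstep : ∀ J, J₀ ≤ J → G.Reachable (v J) (v (J + 1)) := by
    intro J hJ
    obtain ⟨h1, -, h3⟩ := hv J hJ
    obtain ⟨h1', -, h3'⟩ := hv (J + 1) (by omega)
    by_cases hne : v J = v (J + 1)
    · rw [hne]
    by_cases hadj : G.Adj (v J) (v (J + 1))
    · exact hadj.reachable
    · exfalso
      have h4 : |x (v J) - x (v (J + 1))| ≤ |x (v J)| + |x (v (J + 1))| := abs_sub _ _
      have h7 : (0 : ℝ) < 2 ^ J := by positivity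
      have h8 : (2 : ℝ) ^ (J + 1) = 2 * 2 ^ J := by ring
      have h9 : (2 : ℝ) ^ (J + 2) = 4 * 2 ^ J := by ring
      have h10 : (2 : ℝ) ^ (J + 1 + 2) = 8 * 2 ^ J := by ring
      rw [h8] at h1'
      rcases hG.stab _ _ hne hadj with h | h
      · exact h3 G hG (h.mono (by rw [h9]; linarith))
      · exact h3' G hG (h.mono (by rw [h10]; linarith))
  have hall : ∀ J, J₀ ≤ J → G.Reachable (v J₀) (v J) := by
    intro J hJ
    induction J, hJ using Nat.le_induction with
    | base => rfl
    | succ J hJ ih => exact ih.trans (hstep J hJ)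
  refine infinite_of_unbounded (fun J hJ => (hv J hJ).2.1) (J₁ := J₀) fun J hJ => ?_
  rw [SimpleGraph.ConnectedComponent.mem_supp_iff, SimpleGraph.ConnectedComponent.eq]
  exact (hall J hJ).symm

end Pool.Agent.Helper98.MM
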