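import Pool.Agent.Helper98.MM.Det

/-!
# Stable multi-matchings: existence for locally finite configurations
-/

set_option autoImplicit false

namespace Pool.Agent.Helper98.MM

open Set Filter Topology

variable {ι : Type}

/-- length of a pair -/
def len (x : ι → ℝ) : Sym2 ι → ℝ :=
  Sym2.lift ⟨fun i j => |x i - x j|, fun _ _ => abs_sub_comm _ _⟩

@[simp] theorem len_mk (x : ι → ℝ) (i j : ι) : len x s(i, j) = |x i - x j| := rfl

theorem Full.mono_graph {x : ι → ℝ} {D : ι → ℕ} {G G' : SimpleGraph ι} {i : ι} {r : ℝ}
    (h : Full x D G i r) (hG : G ≤ G') : Full x D G' i r :=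
  le_trans h (Set.encard_le_encard fun _ hk => ⟨hG hk.1, hk.2⟩)

/-- Greedy construction for a finite set of pairs. -/
theorem exists_greedy (x : ι → ℝ) (D : ι → ℕ) (P : Finset (Sym2 ι)) :
    ∃ G : SimpleGraph ι, (∀ i j, G.Adj i j → s(i, j) ∈ P) ∧
      (∀ i, (G.neighborSet i).encard ≤ D i) ∧
      (∀ i j, i ≠ j → s(i, j) ∈ P → ¬ G.Adj i j →
        Full x D G i |x i - x j| ∨ Full x D G j |x i - x j|) := by
  classical
  induction P using Finset.induction_on_max_value (len x) with
  | empty =>
    refine ⟨⊥, ?_, ?_, ?_⟩
    · intro i j h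
      exact absurd h (by simp)
    · intro i
      have : (⊥ : SimpleGraph ι).neighborSet i = ∅ := by
        ext k; simp
      rw [this, Set.encard_empty]
      exact zero_le
    · intro i j _ h
      exact absurd h (Finset.notMem_empty _)
  | insert a P ha hmax ih =>
    obtain ⟨G, h1, h2, h3⟩ := ih
    induction a using Sym2.ind with
    | _ u w =>
    have key : ∀ p q : ι, s(p, q) = s(u, w) → (D p : ℕ∞) ≤ (G.neighborSet p).encard →
        Full x D G p |x u - x w| := by
      intro p q hpq hfull
      refine hfull.trans (Set.encard_le_encard fun k hk => ⟨hk, ?_⟩)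
      have := hmax _ (h1 p k hk)
      simpa using this
    by_cases hne : u = w
    · refine ⟨G, fun i j h => Finset.mem_insert_of_mem (h1 i j h), h2, fun i j hij hP => ?_⟩
      refine h3 i j hij ?_
      rw [Finset.mem_insert] at hP
      rcases hP with hP | hP
      · exfalso
        rw [Sym2.eq_iff] at hP
        rcases hP with ⟨ha1, ha2⟩ | ⟨ha1, ha2⟩
        · exact hij (ha1.trans (hne.trans ha2.symm))
        · exact hij (ha1.trans (hne.symm.trans ha2.symm))
      · exact hP
    by_cases hu : (D u : ℕ∞) ≤ (G.neighborSet u).encard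
    · refine ⟨G, fun i j h => Finset.mem_insert_of_mem (h1 i j h), h2, fun i j hij hP hadj => ?_⟩
      rw [Finset.mem_insert] at hP
      rcases hP with hP | hP
      · have hf := key u w rfl hu
        rw [Sym2.eq_iff] at hP
        rcases hP with ⟨rfl, rfl⟩ | ⟨rfl, rfl⟩
        · exact Or.inl hf
        · rw [abs_sub_comm] at hf
          exact Or.inr hf
      · exact h3 i j hij hP hadj
    by_cases hw : (D w : ℕ∞) ≤ (G.neighborSet w).encard
    · refine ⟨G, fun i j h => Finset.mem_insert_of_mem (h1 i j h), h2, fun i j hij hP hadj => ?_⟩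
      rw [Finset.mem_insert] at hP
      rcases hP with hP | hP
      · have hf := key w u Sym2.eq_swap hw
        rw [Sym2.eq_iff] at hP
        rcases hP with ⟨rfl, rfl⟩ | ⟨rfl, rfl⟩
        · exact Or.inr hf
        · rw [abs_sub_comm] at hf
          exact Or.inl hf
      · exact h3 i j hij hP hadj
    · -- add the edge
      push Not at hu hw
      have hlt : ∀ n : ℕ, ∀ e : ℕ∞, e < n → e + 1 ≤ n := by
        intro n e he
        exact Order.add_one_le_of_lt he
      refine ⟨G ⊔ SimpleGraph.edge u w, ?_, ?_, ?_⟩
      · intro i j h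
        rw [SimpleGraph.sup_adj, SimpleGraph.edge_adj] at h
        rcases h with h | ⟨⟨rfl, rfl⟩ | ⟨rfl, rfl⟩, -⟩
        · exact Finset.mem_insert_of_mem (h1 i j h)
        · exact Finset.mem_insert_self _ _
        · rw [Sym2.eq_swap]
          exact Finset.mem_insert_self _ _
      · intro i
        by_cases hiu : i = u
        · subst hiu
          have hsub : (G ⊔ SimpleGraph.edge i w).neighborSet i ⊆ insert w (G.neighborSet i) := by
            intro k hk
            rw [SimpleGraph.mem_neighborSet, SimpleGraph.sup_adj, SimpleGraph.edge_adj] at hk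
            rcases hk with h | ⟨⟨-, rfl⟩ | ⟨rfl, rfl⟩, -⟩
            · exact Or.inr h
            · exact Or.inl rfl
            · exact absurd rfl hne
          exact (Set.encard_le_encard hsub).trans ((Set.encard_insert_le _ _).trans (hlt _ _ hu))
        · by_cases hiw : i = w
          · subst hiw
            have hsub : (G ⊔ SimpleGraph.edge u i).neighborSet i ⊆ insert u (G.neighborSet i) := by
              intro k hk
              rw [SimpleGraph.mem_neighborSet, SimpleGraph.sup_adj, SimpleGraph.edge_adj] at hk
              rcases hk with h | ⟨⟨rfl, rfl⟩ | ⟨-, rfl⟩, -⟩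
              · exact Or.inr h
              · exact absurd rfl hne
              · exact Or.inl rfl
            exact (Set.encard_le_encard hsub).trans ((Set.encard_insert_le _ _).trans (hlt _ _ hw))
          · have hsub : (G ⊔ SimpleGraph.edge u w).neighborSet i ⊆ G.neighborSet i := by
              intro k hk
              rw [SimpleGraph.mem_neighborSet, SimpleGraph.sup_adj, SimpleGraph.edge_adj] at hk
              rcases hk with h | ⟨⟨h, -⟩ | ⟨h, -⟩, -⟩
              · exact h
              · exact absurd h hiu
              · exact absurd h hiw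
            exact (Set.encard_le_encard hsub).trans (h2 i)
      · intro i j hij hP hadj
        have hnG : ¬ G.Adj i j := fun h => hadj (Or.inl h)
        rw [Finset.mem_insert] at hP
        rcases hP with hP | hP
        · exfalso
          apply hadj
          rw [SimpleGraph.sup_adj, SimpleGraph.edge_adj]
          rw [Sym2.eq_iff] at hP
          exact Or.inr ⟨hP, hij⟩
        · rcases h3 i j hij hP hnG with h | h
          · exact Or.inl (h.mono_graph le_sup_left)
          · exact Or.inr (h.mono_graph le_sup_left)

/-- Existence of a weakly stable graph for a locally finite configuration. -/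
theorem exists_weak (x : ι → ℝ) (D : ι → ℕ) (hx : ∀ r : ℝ, {i | |x i| ≤ r}.Finite) :
    ∃ G : SimpleGraph ι, Weak x D G := by
  classical
  set S : ℕ → Finset ι := fun n => (hx n).toFinset with hS
  have hmemS : ∀ n i, i ∈ S n ↔ |x i| ≤ n := by
    intro n i
    rw [hS]
    simp
  choose H hH1 hH2 hH3 using fun n : ℕ => exists_greedy x D (S n).sym2
  set U : Ultrafilter ℕ := hyperfilter ℕ with hU
  have hUle : ∀ {p : ℕ → Prop}, (∀ᶠ n in atTop, p n) → ∀ᶠ n in (U : Filter ℕ), p n :=
    fun h => Nat.hyperfilter_le_atTop h
  set G : SimpleGraph ι :=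
    { Adj := fun i j => ∀ᶠ n in (U : Filter ℕ), (H n).Adj i j
      symm := ⟨fun i j h => h.mono fun n hn => hn.symm⟩
      loopless := ⟨fun i h => by
        obtain ⟨n, hn⟩ := h.exists
        exact hn.ne rfl⟩ } with hG
  have hadj : ∀ i j, G.Adj i j ↔ ∀ᶠ n in (U : Filter ℕ), (H n).Adj i j := fun _ _ => Iff.rfl
  -- agreement on finite sets
  have hagree : ∀ (i : ι) (K : Finset ι), ∀ᶠ n in (U : Filter ℕ), ∀ k ∈ K,
      ((H n).Adj i k ↔ G.Adj i k) := by
    intro i K
    rw [Filter.eventually_all_finset]
    intro k _
    by_cases h : G.Adj i k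
    · exact ((hadj i k).1 h).mono fun n hn => ⟨fun _ => h, fun _ => hn⟩
    · have h' : ∀ᶠ n in (U : Filter ℕ), ¬ (H n).Adj i k := by
        rw [Ultrafilter.eventually_not]
        exact h
      exact h'.mono fun n hn => ⟨fun h1 => absurd h1 hn, fun h1 => absurd h1 h⟩
  refine ⟨G, ?_, ?_⟩
  · intro i
    by_contra hcon
    push Not at hcon
    obtain ⟨t, ht, htc⟩ := Set.exists_subset_encard_eq (Order.add_one_le_of_lt hcon)
    have htfin : t.Finite := by
      rw [← Set.encard_lt_top_iff, htc]
      exact_mod_cast ENat.natCast_lt_top (D i + 1)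
    obtain ⟨n, hn⟩ := (hagree i htfin.toFinset).exists
    have h1 : t ⊆ (H n).neighborSet i := by
      intro k hk
      exact (hn k (htfin.mem_toFinset.2 hk)).2 (ht hk)
    have h2 := (Set.encard_le_encard h1).trans (hH2 n i)
    rw [htc] at h2
    have h3 : D i + 1 ≤ D i := by exact_mod_cast h2
    omega
  · intro i j hij hna
    have hna' : ∀ᶠ n in (U : Filter ℕ), ¬ (H n).Adj i j := by
      rw [Ultrafilter.eventually_not]
      exact hna
    have hlarge : ∀ᶠ n in (U : Filter ℕ), s(i, j) ∈ (S n).sym2 := by
      apply hUle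
      obtain ⟨a, ha⟩ := exists_nat_ge |x i|
      obtain ⟨b, hb⟩ := exists_nat_ge |x j|
      filter_upwards [eventually_ge_atTop (max a b)] with n hn
      rw [Finset.mk_mem_sym2_iff, hmemS, hmemS]
      constructor
      · refine ha.trans ?_
        exact_mod_cast (le_max_left _ _).trans hn
      · refine hb.trans ?_
        exact_mod_cast (le_max_right _ _).trans hn
    have hor : ∀ᶠ n in (U : Filter ℕ),
        Full x D (H n) i |x i - x j| ∨ Full x D (H n) j |x i - x j| := by
      filter_upwards [hna', hlarge] with n h1 h2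
      exact hH3 n i j hij h2 h1
    have hlim : ∀ p : ι, (∀ᶠ n in (U : Filter ℕ), Full x D (H n) p |x i - x j|) →
        Full x D G p |x i - x j| := by
      intro p hp
      have hKfin : {k | |x p - x k| ≤ |x i - x j|}.Finite := by
        refine (hx (|x p| + |x i - x j|)).subset fun k hk => ?_
        rw [Set.mem_ofPred_eq] at hk ⊢
        have := abs_sub_abs_le_abs_sub (x k) (x p)
        rw [abs_sub_comm (x k)] at this
        linarith
      obtain ⟨n, hn1, hn2⟩ := (hp.and (hagree p hKfin.toFinset)).exists
      refine hn1.trans (Set.encard_le_encard fun k hk => ⟨?_, hk.2⟩)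
      exact (hn2 k (hKfin.mem_toFinset.2 hk.2)).1 hk.1
    rw [Ultrafilter.eventually_or] at hor
    rcases hor with h | h
    · exact Or.inl (hlim i h)
    · exact Or.inr (hlim j h)

/-- The deterministic statement. -/
theorem det_main {x : ι → ℝ} {D : ι → ℕ} (hx : ∀ r : ℝ, {i | |x i| ≤ r}.Finite)
    (h : Nice x D) : (∃ G : SimpleGraph ι, IsStableMultiMatching x D G) ∧
      ∀ G : SimpleGraph ι, IsStableMultiMatching x D G →
        ∃ c : G.ConnectedComponent, c.supp.Infinite := by
  obtain ⟨G, hG⟩ := exists_weak x D hx
  exact ⟨⟨G, hG.stable (hG.degree h)⟩, fun G hG => hG.weak.infinite_component h⟩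

end Pool.Agent.Helper98.MM
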