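import Pool.Agent.Helper98.MM.Exist
import Pool.Agent.Helper56_LP.Exists
import Pool.Agent.Helper56_LP.Marked

/-!
# The homogeneous Poisson process on the line with independent marks
-/

set_option autoImplicit false

namespace Pool.Agent.Helper98.MM

open MeasureTheory ProbabilityTheory Set Filter Topology
open scoped ENNReal NNReal

/-- The number of indices `i` for which the point `x i ω` lies in the set `A`. -/
noncomputable def count {Ω : Type} (x : ℕ → Ω → ℝ) (A : Set ℝ) (ω : Ω) : ℝ≥0∞ :=
  ∑' i, A.indicator (fun _ => (1 : ℝ≥0∞)) (x i ω)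

/-- The random points `x 0, x 1, …` enumerate a homogeneous Poisson process of intensity `1` on
the line: the number of points in a Borel set `A` of finite length `|A|` has the Poisson law of
mean `|A|`, and the numbers of points in finitely many disjoint such sets are independent. -/
structure IsPoisson {Ω : Type} [MeasurableSpace Ω] (P : Measure Ω) (x : ℕ → Ω → ℝ) : Prop where
  measurable : ∀ i, Measurable (x i)
  law : ∀ A : Set ℝ, MeasurableSet A → volume A ≠ ∞ → P.map (count x A) =
    (poissonMeasure (volume A).toNNReal).map (fun n : ℕ => (n : ℝ≥0∞))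
  indep : ∀ (ι : Type) [Finite ι] (A : ι → Set ℝ),
    (∀ i, MeasurableSet (A i)) → (∀ i, volume (A i) ≠ ∞) →
    Pairwise (Function.onFun Disjoint A) → iIndepFun (fun i => count x (A i)) P

/-- The points `x 0, x 1, …` enumerate a homogeneous Poisson process of intensity `1` on the
line, and the numbers `D 0, D 1, …` are i.i.d. of law `μ`, independent of the points: `D i` is the
number of stubs of the point `x i`. -/
structure IsMarkedPoisson {Ω : Type} [MeasurableSpace Ω] (P : Measure Ω) (μ : Measure ℕ)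
    (x : ℕ → Ω → ℝ) (D : ℕ → Ω → ℕ) : Prop where
  points : IsPoisson P x
  measurable : ∀ i, Measurable (D i)
  law : ∀ i, P.map (D i) = μ
  indep : iIndepFun D P
  indep_points : IndepFun (fun ω i => x i ω) (fun ω i => D i ω) P

/-! ## Comparison with the processes of `Helper712_LP` in dimension one -/

section bridge

open Pool.Agent.Helper712_LP (E IsPoissonProcess)

/-- the equivalence of `E 1` with the line -/
noncomputable def toE : ℝ ≃ᵐ E 1 :=
  (MeasurableEquiv.funUnique (Fin 1) ℝ).symm.trans (MeasurableEquiv.toLp 2 (Fin 1 → ℝ))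

theorem toE_mp : MeasurePreserving toE (volume : Measure ℝ) (volume : Measure (E 1)) := by
  have h1 : MeasurePreserving (MeasurableEquiv.funUnique (Fin 1) ℝ).symm
      (volume : Measure ℝ) (volume : Measure (Fin 1 → ℝ)) :=
    (volume_preserving_funUnique (Fin 1) ℝ).symm
  have h2 := EuclideanSpace.volume_preserving_symm_measurableEquiv_toLp (Fin 1)
  exact h2.symm.comp h1

theorem count_toE {Ω : Type} (x : ℕ → Ω → ℝ) (A : Set (E 1)) :
    Pool.Agent.Helper712_LP.count (fun i ω => toE (x i ω)) A = count x (toE ⁻¹' A) := by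
  funext ω
  unfold Pool.Agent.Helper712_LP.count count
  rfl

theorem vol_toE (A : Set (E 1)) : volume (toE ⁻¹' A) = volume A :=
  toE_mp.measure_preimage_emb toE.measurableEmbedding A

theorem vol_toE_symm (A : Set ℝ) : volume (toE.symm ⁻¹' A) = volume A :=
  (toE_mp.symm).measure_preimage_emb toE.symm.measurableEmbedding A

theorem IsPoisson.toE {Ω : Type} [MeasurableSpace Ω] {P : Measure Ω} {x : ℕ → Ω → ℝ}
    (hx : IsPoisson P x) : IsPoissonProcess P 1 (fun i ω => toE (x i ω)) := by
  refine ⟨fun i => MM.toE.measurable.comp (hx.measurable i), ?_, ?_⟩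
  · intro A hA hv
    rw [count_toE, hx.law _ (MM.toE.measurable hA) (by rwa [vol_toE]), vol_toE, one_mul]
  · intro ι _ A hA hv hd
    have h := hx.indep ι (fun i => MM.toE ⁻¹' (A i)) (fun i => MM.toE.measurable (hA i))
      (fun i => by rw [vol_toE]; exact hv i) (fun i j hij => (hd hij).preimage _)
    have h2 : (fun i => Pool.Agent.Helper712_LP.count (fun i ω => MM.toE (x i ω)) (A i)) =
        fun i => count x (MM.toE ⁻¹' (A i)) := by
      funext i
      exact count_toE x (A i)
    rw [h2]
    exact h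

theorem exists_poisson : ∃ (Ω : Type) (_ : MeasurableSpace Ω) (P : Measure Ω)
    (_ : IsProbabilityMeasure P) (x : ℕ → Ω → ℝ), IsPoisson P x := by
  obtain ⟨Ω, m, P, hP, y, hy⟩ := Pool.Agent.Helper56_LP.exists_ppp 1 le_rfl 1 one_pos
  refine ⟨Ω, m, P, hP, fun i ω => MM.toE.symm (y i ω), ?_, ?_, ?_⟩
  · exact fun i => MM.toE.symm.measurable.comp (hy.measurable i)
  · intro A hA hv
    have h1 : count (fun i ω => MM.toE.symm (y i ω)) A =
        Pool.Agent.Helper712_LP.count y (MM.toE.symm ⁻¹' A) := rfl
    rw [h1, hy.law _ (MM.toE.symm.measurable hA) (by rwa [vol_toE_symm]), vol_toE_symm, one_mul]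
  · intro ι _ A hA hv hd
    exact hy.indep ι (fun i => MM.toE.symm ⁻¹' (A i)) (fun i => MM.toE.symm.measurable (hA i))
      (fun i => by rw [vol_toE_symm]; exact hv i) (fun i j hij => (hd hij).preimage _)

end bridge

/-- An independent family stays independent on a larger space. -/
theorem indep_lift {Ω Ω' ι : Type} {β : ι → Type} [MeasurableSpace Ω] [MeasurableSpace Ω']
    [∀ i, MeasurableSpace (β i)] {P : Measure Ω} {P' : Measure Ω'} {X : (i : ι) → Ω → β i}
    {f : Ω' → Ω} (hf : MeasurePreserving f P' P) (hX : ∀ i, Measurable (X i))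
    (h : iIndepFun X P) : iIndepFun (fun i ω => X i (f ω)) P' := by
  rw [iIndepFun_iff_measure_inter_preimage_eq_mul] at h ⊢
  intro S sets hs
  have h1 := h S hs
  have h2 : ∀ i ∈ S, P' ((fun ω => X i (f ω)) ⁻¹' sets i) = P (X i ⁻¹' sets i) := by
    intro i hi
    exact hf.measure_preimage ((hX i) (hs i hi)).nullMeasurableSet
  rw [Finset.prod_congr rfl h2, ← h1]
  have h3 : (⋂ i ∈ S, (fun ω => X i (f ω)) ⁻¹' sets i) = f ⁻¹' (⋂ i ∈ S, X i ⁻¹' sets i) := by
    ext ω
    simp
  rw [h3]
  exact hf.measure_preimage (Finset.measurableSet_biInter _ fun i hi =>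
    (hX i) (hs i hi)).nullMeasurableSet

theorem measurable_count {Ω : Type} [MeasurableSpace Ω] {x : ℕ → Ω → ℝ}
    (hx : ∀ i, Measurable (x i)) {A : Set ℝ} (hA : MeasurableSet A) : Measurable (count x A) := by
  unfold count
  exact Measurable.tsum fun i => (measurable_const.indicator hA).comp (hx i)

/-- Marked Poisson processes exist. -/
theorem exists_marked (μ : Measure ℕ) [IsProbabilityMeasure μ] :
    ∃ (Ω : Type) (_ : MeasurableSpace Ω) (P : Measure Ω) (_ : IsProbabilityMeasure P)
      (x : ℕ → Ω → ℝ) (D : ℕ → Ω → ℕ), IsMarkedPoisson P μ x D := by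
  obtain ⟨Ω, m, P, hP, x, hx⟩ := exists_poisson
  set Q : Measure (ℕ → ℕ) := Measure.infinitePi (fun _ : ℕ => μ) with hQ
  have hfst : MeasurePreserving (Prod.fst : Ω × (ℕ → ℕ) → Ω) (P.prod Q) P :=
    ⟨measurable_fst, Measure.fst_prod⟩
  have hsnd : MeasurePreserving (Prod.snd : Ω × (ℕ → ℕ) → (ℕ → ℕ)) (P.prod Q) Q :=
    ⟨measurable_snd, Measure.snd_prod⟩
  refine ⟨Ω × (ℕ → ℕ), inferInstance, P.prod Q, inferInstance, fun i ω => x i ω.1,
    fun i ω => ω.2 i, ⟨?_, ?_, ?_⟩, ?_, ?_, ?_, ?_⟩
  · exact fun i => (hx.measurable i).comp measurable_fst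
  · intro A hA hv
    have h1 : count (fun i (ω : Ω × (ℕ → ℕ)) => x i ω.1) A = count x A ∘ Prod.fst := rfl
    rw [h1, ← Measure.map_map (measurable_count hx.measurable hA) hfst.measurable, hfst.map_eq]
    exact hx.law A hA hv
  · intro ι _ A hA hv hd
    exact indep_lift (X := fun i => count x (A i)) hfst
      (fun i => measurable_count hx.measurable (hA i)) (hx.indep ι A hA hv hd)
  · exact fun i => (measurable_pi_apply i).comp measurable_snd
  · intro i
    have : (fun ω : Ω × (ℕ → ℕ) => ω.2 i) = (fun y : ℕ → ℕ => y i) ∘ Prod.snd := rfl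
    rw [this, ← Measure.map_map (measurable_pi_apply i) measurable_snd, hsnd.map_eq, hQ,
      Measure.infinitePi_map_eval]
  · have h1 : iIndepFun (fun (i : ℕ) (y : ℕ → ℕ) => y i) Q :=
      iIndepFun_infinitePi (P := fun _ : ℕ => μ) (X := fun _ y => y) (fun _ => measurable_id)
    exact indep_lift hsnd (fun i => measurable_pi_apply i) h1
  · have h1 : IndepFun (Prod.fst : Ω × (ℕ → ℕ) → Ω) (Prod.snd : Ω × (ℕ → ℕ) → (ℕ → ℕ))
        (P.prod Q) := by
      rw [indepFun_iff_map_prod_eq_prod_map_map measurable_fst.aemeasurable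
        measurable_snd.aemeasurable, hfst.map_eq, hsnd.map_eq]
      exact Measure.map_id
    exact h1.comp (φ := fun ω i => x i ω) (ψ := fun y => y)
      (measurable_pi_iff.mpr hx.measurable) measurable_id

end Pool.Agent.Helper98.MM
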