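import Pool.Agent.Helper98.MM.Model

/-!
# Almost sure properties of the marked Poisson process on the line
-/

set_option autoImplicit false

namespace Pool.Agent.Helper98.MM

open MeasureTheory ProbabilityTheory Set Filter Topology
open scoped ENNReal NNReal

variable {Ω : Type} [MeasurableSpace Ω] {P : Measure Ω} {μ : Measure ℕ} {x : ℕ → Ω → ℝ}
  {D : ℕ → Ω → ℕ}

theorem lintegral_count (hx : IsPoisson P x) {A : Set ℝ} (hA : MeasurableSet A)
    (hv : volume A ≠ ∞) : ∫⁻ ω, count x A ω ∂P = volume A := by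
  have h1 : ∫⁻ ω, count x A ω ∂P = ∫⁻ y, y ∂(P.map (count x A)) :=
    (lintegral_map measurable_id (measurable_count hx.measurable hA)).symm
  have h2 : ∫⁻ y, y ∂((poissonMeasure (volume A).toNNReal).map (fun n : ℕ => (n : ℝ≥0∞))) =
      ∫⁻ n, (n : ℝ≥0∞) ∂(poissonMeasure (volume A).toNNReal) :=
    lintegral_map measurable_id (measurable_of_countable _)
  rw [h1, hx.law A hA hv, h2, Pool.Agent.Y316.PC.lintegral_id_poisson]
  exact ENNReal.coe_toNNReal hv

theorem ae_finite (hx : IsPoisson P x) : ∀ᵐ ω ∂P, ∀ r : ℝ, {i | |x i ω| ≤ r}.Finite := by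
  have h1 : ∀ n : ℕ, ∀ᵐ ω ∂P, count x (Icc (-(n : ℝ)) n) ω < ∞ := by
    intro n
    have hv : volume (Icc (-(n : ℝ)) n) ≠ ∞ := by
      rw [Real.volume_Icc]; exact ENNReal.ofReal_ne_top
    refine ae_lt_top (measurable_count hx.measurable measurableSet_Icc) ?_
    rw [lintegral_count hx measurableSet_Icc hv]
    exact hv
  rw [← ae_all_iff] at h1
  filter_upwards [h1] with ω hω r
  obtain ⟨n, hn⟩ := exists_nat_ge r
  have h2 := ENNReal.finite_const_le_of_tsum_ne_top (hω n).ne one_ne_zero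
  refine h2.subset fun i hi => ?_
  have hi' : |x i ω| ≤ r := hi
  have h3 : x i ω ∈ Icc (-(n : ℝ)) n := abs_le.1 (hi'.trans hn)
  change 1 ≤ (Icc (-(n : ℝ)) n).indicator (fun _ => (1 : ℝ≥0∞)) (x i ω)
  rw [indicator_of_mem h3]

/-- Few points with many stubs. -/
theorem many_prob (h : IsMarkedPoisson P μ x D) (R : ℝ) (m : ℕ) (hm : 1 ≤ m) :
    P {ω | ¬ ∀ s : Finset ℕ, (∀ i ∈ s, |x i ω| ≤ R) → (∀ i ∈ s, m ≤ D i ω) → s.card < m} ≤
      ENNReal.ofReal (2 * R) * μ (Ici m) / m := by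
  set A : Set ℝ := Icc (-R) R with hA
  set B : Set ℕ := Ici m with hB
  have hAm : MeasurableSet A := measurableSet_Icc
  have hBm : MeasurableSet B := measurableSet_Ici
  set N : Ω → ℝ≥0∞ := fun ω => ∑' i, (x i ⁻¹' A ∩ D i ⁻¹' B).indicator (fun _ => (1 : ℝ≥0∞)) ω
    with hN
  have hmeas : ∀ i, MeasurableSet (x i ⁻¹' A ∩ D i ⁻¹' B) := fun i =>
    (h.points.measurable i hAm).inter (h.measurable i hBm)
  have hNm : Measurable N := Measurable.tsum fun i => measurable_const.indicator (hmeas i)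
  have hvol : volume A = ENNReal.ofReal (2 * R) := by
    rw [hA, Real.volume_Icc]
    congr 1
    ring
  have hv : volume A ≠ ∞ := by rw [hvol]; exact ENNReal.ofReal_ne_top
  have hint : ∫⁻ ω, N ω ∂P = ENNReal.ofReal (2 * R) * μ B := by
    rw [hN, lintegral_tsum fun i => (measurable_const.indicator (hmeas i)).aemeasurable]
    have h1 : ∀ i, ∫⁻ ω, (x i ⁻¹' A ∩ D i ⁻¹' B).indicator (fun _ => (1 : ℝ≥0∞)) ω ∂P =
        P (x i ⁻¹' A) * μ B := by
      intro i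
      rw [lintegral_indicator (hmeas i), lintegral_const, Measure.restrict_apply_univ, one_mul]
      have h2 : IndepFun (x i) (D i) P :=
        h.indep_points.comp (φ := fun z : ℕ → ℝ => z i) (ψ := fun z : ℕ → ℕ => z i)
          (measurable_pi_apply i) (measurable_pi_apply i)
      rw [h2.measure_inter_preimage_eq_mul _ _ hAm hBm, ← h.law i,
        Measure.map_apply (h.measurable i) hBm]
    rw [tsum_congr h1, ENNReal.tsum_mul_right]
    congr 1
    rw [← hvol, ← lintegral_count h.points hAm hv]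
    have h4 : ∫⁻ ω, count x A ω ∂P =
        ∑' i, ∫⁻ ω, A.indicator (fun _ => (1 : ℝ≥0∞)) (x i ω) ∂P := by
      unfold count
      exact lintegral_tsum fun i =>
        ((measurable_const.indicator hAm).comp (h.points.measurable i)).aemeasurable
    rw [h4]
    refine tsum_congr fun i => ?_
    have h3 : (fun ω => A.indicator (fun _ => (1 : ℝ≥0∞)) (x i ω)) =
        (x i ⁻¹' A).indicator (fun _ => (1 : ℝ≥0∞)) := by
      funext ω
      rfl
    rw [h3, lintegral_indicator (h.points.measurable i hAm), lintegral_const,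
      Measure.restrict_apply_univ, one_mul]
  have hsub : {ω | ¬ ∀ s : Finset ℕ, (∀ i ∈ s, |x i ω| ≤ R) → (∀ i ∈ s, m ≤ D i ω) →
      s.card < m} ⊆ {ω | (m : ℝ≥0∞) ≤ N ω} := by
    intro ω hω
    rw [mem_ofPred_eq] at hω ⊢
    push Not at hω
    obtain ⟨s, h1, h2, h3⟩ := hω
    calc (m : ℝ≥0∞) ≤ s.card := by exact_mod_cast h3
      _ = ∑ i ∈ s, (x i ⁻¹' A ∩ D i ⁻¹' B).indicator (fun _ => (1 : ℝ≥0∞)) ω := by
          rw [Finset.sum_congr rfl (fun i hi => indicator_of_mem (show ω ∈ x i ⁻¹' A ∩ D i ⁻¹' B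
            from ⟨abs_le.1 (h1 i hi), h2 i hi⟩) _)]
          simp
      _ ≤ N ω := ENNReal.sum_le_tsum s
  refine (measure_mono hsub).trans ?_
  have hm0 : (m : ℝ≥0∞) ≠ 0 := by
    have : m ≠ 0 := by omega
    exact_mod_cast this
  have := meas_ge_le_lintegral_div hNm.aemeasurable (μ := P) hm0 (ENNReal.natCast_ne_top m)
  rwa [hint] at this

theorem poisson_two (r : ℝ≥0) : poissonMeasure r {n : ℕ | 2 ≤ n} ≤ (r : ℝ≥0∞) ^ 2 := by
  have h1 : {n : ℕ | 2 ≤ n} = ({0, 1} : Set ℕ)ᶜ := by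
    ext n
    simp only [mem_ofPred_eq, mem_compl_iff, mem_insert_iff, mem_singleton_iff]
    omega
  have h2 : poissonMeasure r ({0, 1} : Set ℕ) = ENNReal.ofReal (Real.exp (-r) * (1 + r)) := by
    have : ({0, 1} : Set ℕ) = {0} ∪ {1} := rfl
    rw [this, measure_union (by simp) (measurableSet_singleton _), poissonMeasure_singleton,
      poissonMeasure_singleton, ← ENNReal.ofReal_add (by positivity) (by positivity)]
    congr 1
    simp
    ring
  rw [h1, prob_compl_eq_one_sub (by measurability), h2]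
  have h3 : (r : ℝ≥0∞) ^ 2 = ENNReal.ofReal ((r : ℝ) ^ 2) := by
    rw [ENNReal.ofReal_pow (NNReal.coe_nonneg r), ENNReal.ofReal_coe_nnreal]
  rw [h3, ← ENNReal.ofReal_one, ← ENNReal.ofReal_sub _ (by positivity)]
  apply ENNReal.ofReal_le_ofReal
  have h4 : 1 - (r : ℝ) ≤ Real.exp (-r) := Real.one_sub_le_exp_neg r
  have h5 : (0 : ℝ) ≤ r := r.2
  nlinarith

/-- Two points in a small set. -/
theorem two_prob (hx : IsPoisson P x) {A : Set ℝ} (hA : MeasurableSet A) (hv : volume A ≠ ∞) :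
    P {ω | ∃ i j, i ≠ j ∧ x i ω ∈ A ∧ x j ω ∈ A} ≤ volume A ^ 2 := by
  have hsub : {ω | ∃ i j, i ≠ j ∧ x i ω ∈ A ∧ x j ω ∈ A} ⊆ count x A ⁻¹' (Ici 2) := by
    rintro ω ⟨i, j, hij, hi, hj⟩
    change 2 ≤ count x A ω
    unfold count
    refine le_trans ?_ (ENNReal.sum_le_tsum ({i, j} : Finset ℕ))
    rw [Finset.sum_pair hij, indicator_of_mem hi, indicator_of_mem hj]
    norm_num
  refine (measure_mono hsub).trans ?_
  rw [← Measure.map_apply (measurable_count hx.measurable hA) measurableSet_Ici, hx.law A hA hv,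
    Measure.map_apply (measurable_of_countable _) measurableSet_Ici]
  have h1 : (fun n : ℕ => (n : ℝ≥0∞)) ⁻¹' (Ici 2) = {n : ℕ | 2 ≤ n} := by
    ext n
    simp only [mem_preimage, mem_Ici, mem_ofPred_eq]
    exact Nat.ofNat_le_cast
  rw [h1]
  refine (poisson_two _).trans ?_
  rw [ENNReal.coe_toNNReal hv]

/-- The points are well separated. -/
theorem sep_prob (hx : IsPoisson P x) (J : ℕ) :
    P {ω | ¬ ∀ i j, i ≠ j → |x i ω| ≤ 5 * 2 ^ J → |x j ω| ≤ 5 * 2 ^ J →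
      (2 : ℝ) ^ (-(2 * (J : ℤ))) < |x i ω - x j ω|} ≤ ENNReal.ofReal (44 * (1 / 2) ^ J) := by
  set δ : ℝ := (2 : ℝ) ^ (-(2 * (J : ℤ))) with hδ
  have hδ0 : 0 < δ := by positivity
  have hδ1 : δ = 1 / (2 ^ J * 2 ^ J) := by
    rw [hδ, zpow_neg, two_mul, zpow_add₀ (by norm_num), zpow_natCast, one_div]
  set K : ℕ := 5 * (2 ^ J * (2 ^ J * 2 ^ J)) with hK
  have hKδ : (K : ℝ) * δ = 5 * 2 ^ J := by
    rw [hK, hδ1]
    push_cast
    field_simp
  have hcell : ∀ k : ℤ, P {ω | ∃ i j, i ≠ j ∧ x i ω ∈ Icc ((k : ℝ) * δ) ((k + 2) * δ) ∧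
      x j ω ∈ Icc ((k : ℝ) * δ) ((k + 2) * δ)} ≤ ENNReal.ofReal ((2 * δ) ^ 2) := by
    intro k
    have hvol : volume (Icc ((k : ℝ) * δ) ((k + 2) * δ)) = ENNReal.ofReal (2 * δ) := by
      rw [Real.volume_Icc]
      congr 1
      ring
    refine (two_prob hx measurableSet_Icc (by rw [hvol]; exact ENNReal.ofReal_ne_top)).trans ?_
    rw [hvol, ENNReal.ofReal_pow (by positivity)]
  have hsub : {ω | ¬ ∀ i j, i ≠ j → |x i ω| ≤ 5 * 2 ^ J → |x j ω| ≤ 5 * 2 ^ J →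
      δ < |x i ω - x j ω|} ⊆ ⋃ k ∈ Finset.Icc (-(K : ℤ)) K,
      {ω | ∃ i j, i ≠ j ∧ x i ω ∈ Icc ((k : ℝ) * δ) ((k + 2) * δ) ∧
      x j ω ∈ Icc ((k : ℝ) * δ) ((k + 2) * δ)} := by
    have aux : ∀ ω, ∀ i j, i ≠ j → |x i ω| ≤ 5 * 2 ^ J → |x i ω - x j ω| ≤ δ →
        x i ω ≤ x j ω → ω ∈ ⋃ k ∈ Finset.Icc (-(K : ℤ)) K,
        {ω | ∃ i j, i ≠ j ∧ x i ω ∈ Icc ((k : ℝ) * δ) ((k + 2) * δ) ∧
        x j ω ∈ Icc ((k : ℝ) * δ) ((k + 2) * δ)} := by
      intro ω i j hij hi hd hle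
      rw [← hKδ] at hi
      rw [mem_iUnion₂]
      have h1 := Int.floor_le (x i ω / δ)
      have h2 := Int.lt_floor_add_one (x i ω / δ)
      rw [le_div_iff₀ hδ0] at h1
      rw [div_lt_iff₀ hδ0] at h2
      have h3 := abs_le.1 hi
      have h4 := abs_le.1 hd
      refine ⟨⌊x i ω / δ⌋, ?_, i, j, hij, ⟨h1, by nlinarith⟩, ⟨by linarith, ?_⟩⟩
      · rw [Finset.mem_Icc]
        constructor
        · rw [Int.le_floor, le_div_iff₀ hδ0]
          push_cast
          linarith [h3.1]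
        · have : (⌊x i ω / δ⌋ : ℝ) ≤ K := by
            have h5 : (⌊x i ω / δ⌋ : ℝ) * δ ≤ K * δ := h1.trans h3.2
            exact le_of_mul_le_mul_right h5 hδ0
          exact_mod_cast this
      · have : x j ω ≤ x i ω + δ := by linarith [h4.1]
        linarith
    intro ω hω
    rw [mem_ofPred_eq] at hω
    push Not at hω
    obtain ⟨i, j, hij, hi, hj, hd⟩ := hω
    rcases le_total (x i ω) (x j ω) with h | h
    · exact aux ω i j hij hi hd h
    · rw [abs_sub_comm] at hd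
      exact aux ω j i hij.symm hj hd h
  refine (measure_mono hsub).trans ((measure_biUnion_finset_le _ _).trans ?_)
  refine (Finset.sum_le_sum fun k _ => hcell k).trans ?_
  rw [Finset.sum_const, Int.card_Icc, nsmul_eq_mul]
  have hc : ((K : ℤ) + 1 - -(K : ℤ)).toNat = 2 * K + 1 := by omega
  rw [hc, ← ENNReal.ofReal_natCast, ← ENNReal.ofReal_mul (by positivity)]
  apply ENNReal.ofReal_le_ofReal
  push_cast
  have h1 : (2 * (K : ℝ) + 1) * (2 * δ) ^ 2 = 8 * (K * δ) * δ + 4 * δ ^ 2 := by ring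
  rw [h1, hKδ, hδ1]
  have hp : (1 : ℝ) ≤ 2 ^ J := one_le_pow₀ (by norm_num)
  have hhalf : ((1 : ℝ) / 2) ^ J = 1 / 2 ^ J := by rw [div_pow, one_pow]
  rw [hhalf]
  have h2 : (8 : ℝ) * (5 * 2 ^ J) * (1 / (2 ^ J * 2 ^ J)) = 40 * (1 / 2 ^ J) := by
    field_simp
    ring
  rw [h2]
  have h3 : 4 * ((1 : ℝ) / (2 ^ J * 2 ^ J)) ^ 2 ≤ 4 * (1 / 2 ^ J) := by
    have h4 : (1 : ℝ) / (2 ^ J * 2 ^ J) ≤ 1 / 2 ^ J := by
      apply one_div_le_one_div_of_le (by positivity)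
      nlinarith
    have h5 : (1 : ℝ) / (2 ^ J * 2 ^ J) ≤ 1 := by
      rw [div_le_one (by positivity)]
      nlinarith
    have h6 : (0 : ℝ) ≤ 1 / (2 ^ J * 2 ^ J) := by positivity
    nlinarith
  linarith

/-- The probability that no point in a window has many stubs. -/
theorem void_prob [IsProbabilityMeasure P] [IsProbabilityMeasure μ]
    (h : IsMarkedPoisson P μ x D) (R : ℝ) (hR : 0 ≤ R) (T : ℕ) :
    P {ω | ∀ i, ¬ (|x i ω| ≤ R ∧ T ≤ D i ω)} =
      ENNReal.ofReal (Real.exp (-(2 * R * (μ (Ici T)).toReal))) := by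
  set A : Set ℝ := Icc (-R) R with hA
  set B : Set ℕ := Ici T with hB
  have hAm : MeasurableSet A := measurableSet_Icc
  have hBm : MeasurableSet B := measurableSet_Ici
  set A' : Set (Pool.Agent.Helper712_LP.E 1) := toE.symm ⁻¹' A with hA'
  have hAm' : MeasurableSet A' := toE.symm.measurable hAm
  have hvol : volume A' = ENNReal.ofReal (2 * R) := by
    rw [hA', vol_toE_symm, hA, Real.volume_Icc]
    congr 1
    ring
  have hpm : MeasurableSet (A' ×ˢ B) := hAm'.prod hBm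
  have hφm : Measurable ((A' ×ˢ B).indicator (fun _ => (1 : ℝ≥0∞))) :=
    measurable_const.indicator hpm
  have hint : ∫⁻ z, ∫⁻ m, (A' ×ˢ B).indicator (fun _ => (1 : ℝ≥0∞)) (z, m) ∂μ =
      ENNReal.ofReal (2 * R) * μ B := by
    have h1 : ∀ z, ∫⁻ m, (A' ×ˢ B).indicator (fun _ => (1 : ℝ≥0∞)) (z, m) ∂μ =
        A'.indicator (fun _ => μ B) z := by
      intro z
      by_cases hz : z ∈ A'
      · rw [indicator_of_mem hz]
        have : (fun m => (A' ×ˢ B).indicator (fun _ => (1 : ℝ≥0∞)) (z, m)) =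
            B.indicator (fun _ => (1 : ℝ≥0∞)) := by
          funext m
          by_cases hm : m ∈ B
          · rw [indicator_of_mem hm, indicator_of_mem (Set.mk_mem_prod hz hm)]
          · rw [indicator_of_notMem hm, indicator_of_notMem fun h => hm h.2]
        rw [this, lintegral_indicator hBm, lintegral_const, Measure.restrict_apply_univ, one_mul]
      · rw [indicator_of_notMem hz]
        have : (fun m => (A' ×ˢ B).indicator (fun _ => (1 : ℝ≥0∞)) (z, m)) = fun _ => 0 := by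
          funext m
          rw [indicator_of_notMem fun h => hz h.1]
        rw [this, lintegral_zero]
    simp_rw [h1]
    rw [lintegral_indicator hAm', lintegral_const, Measure.restrict_apply_univ, hvol, mul_comm]
  have h1 := Pool.Agent.Helper56_LP.marked 1 Ω P 1 (fun i ω => toE (x i ω)) h.points.toE ℕ D μ
    h.measurable h.law h.indep
    (h.indep_points.comp (φ := fun z : ℕ → ℝ => fun i => toE (z i)) (ψ := fun z => z)
      (measurable_pi_lambda _ fun i => toE.measurable.comp (measurable_pi_apply i)) measurable_id)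
    ((A' ×ˢ B).indicator (fun _ => (1 : ℝ≥0∞))) hφm
    (fun q => by
      by_cases hq : q ∈ A' ×ˢ B
      · rw [indicator_of_mem hq]
      · rw [indicator_of_notMem hq]; exact zero_le)
    (by
      rw [hint]
      exact ENNReal.mul_ne_top ENNReal.ofReal_ne_top (measure_ne_top _ _))
  rw [hint, ENNReal.toReal_mul, ENNReal.toReal_ofReal (by positivity), NNReal.coe_one,
    one_mul] at h1
  rw [← h1]
  have hSm : MeasurableSet {ω | ∀ i, ¬ (|x i ω| ≤ R ∧ T ≤ D i ω)} := by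
    have : {ω | ∀ i, ¬ (|x i ω| ≤ R ∧ T ≤ D i ω)} = ⋂ i, (x i ⁻¹' A ∩ D i ⁻¹' B)ᶜ := by
      ext ω
      simp only [mem_ofPred_eq, mem_iInter, mem_compl_iff, mem_inter_iff, mem_preimage, hA, hB,
        mem_Icc, mem_Ici, abs_le]
    rw [this]
    exact MeasurableSet.iInter fun i =>
      ((h.points.measurable i hAm).inter (h.measurable i hBm)).compl
  have h2 : ∀ ω, ⨅ m : ℕ, ∏ i ∈ Finset.range m,
      (1 - (A' ×ˢ B).indicator (fun _ => (1 : ℝ≥0∞)) (toE (x i ω), D i ω)) =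
      {ω | ∀ i, ¬ (|x i ω| ≤ R ∧ T ≤ D i ω)}.indicator (fun _ => (1 : ℝ≥0∞)) ω := by
    intro ω
    rw [Pool.Agent.Helper56_LP.iInf_prod_indicator (A' ×ˢ B) (fun i => (toE (x i ω), D i ω))]
    have h3 : (∀ i, (toE (x i ω), D i ω) ∉ A' ×ˢ B) ↔ ∀ i, ¬ (|x i ω| ≤ R ∧ T ≤ D i ω) := by
      refine forall_congr' fun i => not_congr ?_
      rw [Set.mem_prod, hA', mem_preimage, MeasurableEquiv.symm_apply_apply, hA, hB, mem_Icc,
        mem_Ici, abs_le]
    by_cases h4 : ∀ i, ¬ (|x i ω| ≤ R ∧ T ≤ D i ω)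
    · rw [indicator_of_mem (show (fun i => (toE (x i ω), D i ω)) ∈
        {y : ℕ → Pool.Agent.Helper712_LP.E 1 × ℕ | ∀ i, y i ∉ A' ×ˢ B} from h3.2 h4),
        indicator_of_mem (show ω ∈ {ω | ∀ i, ¬ (|x i ω| ≤ R ∧ T ≤ D i ω)} from h4)]
    · rw [indicator_of_notMem (show (fun i => (toE (x i ω), D i ω)) ∉
        {y : ℕ → Pool.Agent.Helper712_LP.E 1 × ℕ | ∀ i, y i ∉ A' ×ˢ B} from
          fun h => h4 (h3.1 h)),
        indicator_of_notMem (show ω ∉ {ω | ∀ i, ¬ (|x i ω| ≤ R ∧ T ≤ D i ω)} from h4)]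
  simp_rw [h2]
  rw [lintegral_indicator hSm, lintegral_const, Measure.restrict_apply_univ, one_mul]

/-- The configuration is almost surely good at all large scales. -/
theorem ae_nice_of_seq [IsProbabilityMeasure P] [IsProbabilityMeasure μ]
    (h : IsMarkedPoisson P μ x D) (m T : ℕ → ℕ) (hm : ∀ J, 1 ≤ m J)
    (hT : ∀ J, 2 * (3 * J + 2) * m J ≤ T J)
    (h1 : ∑' J, ENNReal.ofReal (10 * 2 ^ J) * μ (Ici (m J)) / m J ≠ ∞)
    (h2 : ∑' J, ENNReal.ofReal (Real.exp (-(2 * 2 ^ J * (μ (Ici (T J))).toReal))) ≠ ∞) :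
    ∀ᵐ ω ∂P, Nice (fun i => x i ω) (fun i => D i ω) := by
  have e1 : ∀ᵐ ω ∂P, ∀ᶠ J in atTop, ω ∉ {ω | ¬ ∀ s : Finset ℕ,
      (∀ i ∈ s, |x i ω| ≤ 5 * 2 ^ J) → (∀ i ∈ s, m J ≤ D i ω) → s.card < m J} := by
    refine ae_eventually_notMem (ne_top_of_le_ne_top h1 (ENNReal.tsum_le_tsum fun J => ?_))
    refine (many_prob h (5 * 2 ^ J) (m J) (hm J)).trans (le_of_eq ?_)
    congr 3
    ring
  have e2 : ∀ᵐ ω ∂P, ∀ᶠ J : ℕ in atTop, ω ∉ {ω | ¬ ∀ i j, i ≠ j → |x i ω| ≤ 5 * 2 ^ J →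
      |x j ω| ≤ 5 * 2 ^ J → (2 : ℝ) ^ (-(2 * (J : ℤ))) < |x i ω - x j ω|} := by
    refine ae_eventually_notMem (ne_top_of_le_ne_top ?_ (ENNReal.tsum_le_tsum fun J =>
      sep_prob h.points J))
    rw [← ENNReal.ofReal_tsum_of_nonneg (fun n => by positivity)
      ((summable_geometric_of_lt_one (by norm_num) (by norm_num)).mul_left 44)]
    exact ENNReal.ofReal_ne_top
  have e3 : ∀ᵐ ω ∂P, ∀ᶠ J in atTop, ω ∉ {ω | ∀ i, ¬ (|x i ω| ≤ 2 ^ J ∧ T J ≤ D i ω)} := by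
    refine ae_eventually_notMem (ne_top_of_le_ne_top h2 (ENNReal.tsum_le_tsum fun J => ?_))
    exact (void_prob h (2 ^ J) (by positivity) (T J)).le
  filter_upwards [e1, e2, e3] with ω w1 w2 w3
  obtain ⟨J₀, hJ₀⟩ := eventually_atTop.1 (w1.and (w2.and w3))
  refine ⟨J₀, fun J hJ => ?_⟩
  obtain ⟨u1, u2, u3⟩ := hJ₀ J hJ
  rw [not_not] at u1 u2
  push Not at u3
  obtain ⟨v, hv1, hv2⟩ := u3
  exact ⟨m J, ⟨hm J, u1, u2⟩, v, hv1, (hT J).trans hv2⟩

end Pool.Agent.Helper98.MM
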