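import Pool.Agent.Helper98.MM.Prob

/-!
# Power law tails
-/

set_option autoImplicit false

namespace Pool.Agent.Helper98.MM

open MeasureTheory ProbabilityTheory Set Filter Topology
open scoped ENNReal NNReal

/-- elementary asymptotics -/
theorem eventually_growth (a c η : ℝ) (ha : 0 < a) (hc : 0 < c) (hη : 0 < η) :
    ∀ᶠ J : ℕ in atTop, (J : ℝ) ≤ 2 * c * ((12 * J + 8 : ℝ) ^ (-a) * (2 : ℝ) ^ (η * J)) := by
  have h1 : (fun y : ℝ => y ^ (a + 1)) =o[atTop] fun y : ℝ => Real.exp (η * Real.log 2 * y) :=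
    isLittleO_rpow_exp_pos_mul_atTop (a + 1) (mul_pos hη (Real.log_pos one_lt_two))
  have h2 := h1.bound (c := 2 * c / 20 ^ a) (by positivity)
  have h3 := (tendsto_natCast_atTop_atTop (R := ℝ)).eventually h2
  filter_upwards [h3, eventually_ge_atTop 1] with J hJ hJ1
  have hJr : (1 : ℝ) ≤ J := by exact_mod_cast hJ1
  have hJ0 : (0 : ℝ) < J := by linarith
  rw [Real.norm_of_nonneg (by positivity), Real.norm_of_nonneg (Real.exp_pos _).le] at hJ
  have h4 : Real.exp (η * Real.log 2 * J) = (2 : ℝ) ^ (η * J) := by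
    rw [Real.rpow_def_of_pos (by norm_num)]
    congr 1
    ring
  rw [h4, Real.rpow_add hJ0, Real.rpow_one] at hJ
  have h5 : (12 * J + 8 : ℝ) ^ a ≤ 20 ^ a * (J : ℝ) ^ a := by
    rw [← Real.mul_rpow (by norm_num) hJ0.le]
    exact Real.rpow_le_rpow (by positivity) (by linarith) ha.le
  have h6 : (0 : ℝ) < (12 * J + 8 : ℝ) ^ a := by positivity
  have h7 : (0 : ℝ) < (2 : ℝ) ^ (η * J) := by positivity
  have h8 : (0 : ℝ) < (20 : ℝ) ^ a := by positivity
  have h9 : (0 : ℝ) < (J : ℝ) ^ a := by positivity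
  rw [Real.rpow_neg (by positivity)]
  have h10 : 2 * c * (((12 * J + 8 : ℝ) ^ a)⁻¹ * (2 : ℝ) ^ (η * J)) =
      2 * c * (2 : ℝ) ^ (η * J) / (12 * J + 8 : ℝ) ^ a := by
    field_simp
  rw [h10, le_div_iff₀ h6]
  calc (J : ℝ) * (12 * J + 8 : ℝ) ^ a ≤ J * (20 ^ a * (J : ℝ) ^ a) :=
        mul_le_mul_of_nonneg_left h5 hJ0.le
    _ = 20 ^ a * ((J : ℝ) ^ a * J) := by ring
    _ ≤ 20 ^ a * (2 * c / 20 ^ a * (2 : ℝ) ^ (η * J)) := mul_le_mul_of_nonneg_left hJ h8.le
    _ = 2 * c * (2 : ℝ) ^ (η * J) := by field_simp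

section main

variable {Ω : Type} [MeasurableSpace Ω] {P : Measure Ω} {μ : Measure ℕ} {x : ℕ → Ω → ℝ}
  {D : ℕ → Ω → ℕ}

theorem ae_nice [IsProbabilityMeasure P] [IsProbabilityMeasure μ]
    (h : IsMarkedPoisson P μ x D) {a b c C : ℝ} (ha : 0 < a) (hb : 0 ≤ b) (hab : a < b + 1)
    (hc : 0 < c) (hlow : ∀ t : ℕ, 1 ≤ t → c * (t : ℝ) ^ (-a) ≤ μ.real (Ioi t))
    (hup : ∀ t : ℕ, 1 ≤ t → μ.real (Ioi t) ≤ C * (t : ℝ) ^ (-b)) :
    ∀ᵐ ω ∂P, Nice (fun i => x i ω) (fun i => D i ω) := by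
  obtain ⟨s, hs1, hs2⟩ := exists_between (one_div_lt_one_div_of_lt ha hab)
  have hb1 : 0 < b + 1 := by linarith
  have hs0 : 0 < s := lt_trans (by positivity) hs1
  have hsa : s * a < 1 := by rwa [lt_div_iff₀ ha] at hs2
  have hsb : 1 < s * (b + 1) := by rwa [div_lt_iff₀ hb1] at hs1
  set m : ℕ → ℕ := fun J => ⌈(2 : ℝ) ^ (s * J)⌉₊ with hm
  have hone : ∀ J : ℕ, (1 : ℝ) ≤ (2 : ℝ) ^ (s * J) := fun J =>
    Real.one_le_rpow (by norm_num) (by positivity)
  have hmge : ∀ J : ℕ, (2 : ℝ) ^ (s * J) ≤ m J := fun J => Nat.le_ceil _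
  have hmle : ∀ J : ℕ, (m J : ℝ) ≤ 2 * (2 : ℝ) ^ (s * J) := by
    intro J
    have := (Nat.ceil_lt_add_one (zero_le_one.trans (hone J))).le
    have h1 := hone J
    change ((⌈(2 : ℝ) ^ (s * J)⌉₊ : ℕ) : ℝ) ≤ _
    linarith
  have hm1 : ∀ J, 1 ≤ m J := by
    intro J
    have := (hone J).trans (hmge J)
    exact_mod_cast this
  have hm2 : ∀ J, 1 ≤ J → 2 ≤ m J := by
    intro J hJ
    have h1 : (1 : ℝ) < (2 : ℝ) ^ (s * J) := by
      apply Real.one_lt_rpow (by norm_num)
      have : (1 : ℝ) ≤ J := by exact_mod_cast hJ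
      positivity
    have h2 : (1 : ℝ) < m J := lt_of_lt_of_le h1 (hmge J)
    have h3 : 1 < m J := by exact_mod_cast h2
    omega
  have hC : 0 ≤ C := by
    have := (hlow 1 le_rfl).trans (hup 1 le_rfl)
    simp only [Nat.cast_one, Real.one_rpow, mul_one] at this
    linarith
  refine ae_nice_of_seq h m (fun J => 2 * (3 * J + 2) * m J) hm1 (fun J => le_rfl) ?_ ?_
  · -- few points with many stubs
    set q : ℝ := (2 : ℝ) ^ (1 - s * (b + 1)) with hq
    have hq0 : 0 < q := by positivity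
    have hq1 : q < 1 := Real.rpow_lt_one_of_one_lt_of_neg (by norm_num) (by linarith)
    set K : ℝ := 10 + 10 * C * 2 ^ b with hK
    have hK0 : 0 ≤ K := by positivity
    refine ne_top_of_le_ne_top ?_ (ENNReal.tsum_le_tsum (g := fun J => ENNReal.ofReal (K * q ^ J))
      fun J => ?_)
    · rw [← ENNReal.ofReal_tsum_of_nonneg (fun n => by positivity)
        ((summable_geometric_of_lt_one hq0.le hq1).mul_left K)]
      exact ENNReal.ofReal_ne_top
    · rcases Nat.eq_zero_or_pos J with rfl | hJ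
      · have h1 : ENNReal.ofReal (10 * 2 ^ 0) * μ (Ici (m 0)) / (m 0 : ℝ≥0∞) ≤
            ENNReal.ofReal (10 * 2 ^ 0) := by
          refine (ENNReal.div_le_of_le_mul ?_)
          refine mul_le_mul' le_rfl (prob_le_one.trans ?_)
          exact_mod_cast hm1 0
        refine h1.trans (ENNReal.ofReal_le_ofReal ?_)
        rw [pow_zero, pow_zero, mul_one, mul_one, hK]
        have : 0 ≤ 10 * C * (2 : ℝ) ^ b := by positivity
        linarith
      · have h2 := hm2 J hJ
        have hset : Ici (m J) = Ioi (m J - 1) := by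
          ext k
          simp only [mem_Ici, mem_Ioi]
          omega
        have hμ : μ (Ici (m J)) = ENNReal.ofReal (μ.real (Ioi (m J - 1))) := by
          rw [hset, measureReal_def, ENNReal.ofReal_toReal (measure_ne_top _ _)]
        have hmpos : (0 : ℝ) < m J := by
          have : 0 < m J := by omega
          exact_mod_cast this
        have hdiv : ENNReal.ofReal (10 * 2 ^ J) * μ (Ici (m J)) / (m J : ℝ≥0∞) =
            ENNReal.ofReal (10 * 2 ^ J * μ.real (Ioi (m J - 1)) / m J) := by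
          rw [hμ, ← ENNReal.ofReal_mul (by positivity), ENNReal.ofReal_div_of_pos hmpos,
            ENNReal.ofReal_natCast]
        rw [hdiv]
        apply ENNReal.ofReal_le_ofReal
        have h3 := hup (m J - 1) (by omega)
        have h4 : ((m J - 1 : ℕ) : ℝ) ^ (-b) ≤ 2 ^ b * (m J : ℝ) ^ (-b) := by
          have h5 : (m J : ℝ) / 2 ≤ ((m J - 1 : ℕ) : ℝ) := by
            rw [Nat.cast_sub (by omega)]
            have : (2 : ℝ) ≤ m J := by exact_mod_cast h2
            push_cast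
            linarith
          have h6 : ((m J - 1 : ℕ) : ℝ) ^ (-b) ≤ ((m J : ℝ) / 2) ^ (-b) :=
            Real.rpow_le_rpow_of_nonpos (by positivity) h5 (by linarith)
          refine h6.trans (le_of_eq ?_)
          rw [Real.div_rpow hmpos.le (by norm_num), Real.rpow_neg (by norm_num : (0 : ℝ) ≤ 2)]
          field_simp
        have h7 : (m J : ℝ) ^ (-b) / m J ≤ (2 : ℝ) ^ (-(s * (b + 1)) * J) := by
          have e1 : (m J : ℝ) ^ (-b) / m J = (m J : ℝ) ^ (-(b + 1)) := by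
            rw [show -(b + 1) = -b - 1 by ring, Real.rpow_sub_one hmpos.ne']
          rw [e1]
          have e2 : (2 : ℝ) ^ (-(s * (b + 1)) * J) = ((2 : ℝ) ^ (s * J)) ^ (-(b + 1)) := by
            rw [← Real.rpow_mul (by norm_num)]
            congr 1
            ring
          rw [e2]
          exact Real.rpow_le_rpow_of_nonpos (by positivity) (hmge J) (by linarith)
        have h8 : q ^ J = 2 ^ J * (2 : ℝ) ^ (-(s * (b + 1)) * J) := by
          rw [hq, ← Real.rpow_natCast, ← Real.rpow_mul (by norm_num), ← Real.rpow_natCast,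
            ← Real.rpow_add (by norm_num)]
          congr 1
          ring
        rw [h8]
        calc 10 * 2 ^ J * μ.real (Ioi (m J - 1)) / m J
            ≤ 10 * 2 ^ J * (C * (2 ^ b * (m J : ℝ) ^ (-b))) / m J := by
              apply div_le_div_of_nonneg_right _ hmpos.le
              apply mul_le_mul_of_nonneg_left _ (by positivity)
              exact h3.trans (mul_le_mul_of_nonneg_left h4 hC)
          _ = (10 * C * 2 ^ b) * (2 ^ J * ((m J : ℝ) ^ (-b) / m J)) := by ring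
          _ ≤ (10 * C * 2 ^ b) * (2 ^ J * (2 : ℝ) ^ (-(s * (b + 1)) * J)) := by
              apply mul_le_mul_of_nonneg_left _ (by positivity)
              exact mul_le_mul_of_nonneg_left h7 (by positivity)
          _ ≤ K * (2 ^ J * (2 : ℝ) ^ (-(s * (b + 1)) * J)) := by
              apply mul_le_mul_of_nonneg_right _ (by positivity)
              rw [hK]
              linarith
  · -- a point with many stubs
    have hsum : Summable (fun J : ℕ =>
        Real.exp (-(2 * 2 ^ J * (μ (Ici (2 * (3 * J + 2) * m J))).toReal))) := by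
      refine summable_of_isBigO_nat (g := fun n : ℕ => Real.exp (-n)) Real.summable_exp_neg_nat ?_
      refine Asymptotics.IsBigO.of_bound 1 ?_
      filter_upwards [eventually_growth a c (1 - s * a) ha hc (by linarith)] with J hJ
      rw [Real.norm_of_nonneg (Real.exp_pos _).le, Real.norm_of_nonneg (Real.exp_pos _).le,
        one_mul]
      apply Real.exp_le_exp.2
      rw [neg_le_neg_iff]
      refine hJ.trans ?_
      set T : ℕ := 2 * (3 * J + 2) * m J with hT
      have hT1 : 1 ≤ T := by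
        have := hm1 J
        rw [hT]
        nlinarith
      have hTle : (T : ℝ) ≤ (12 * J + 8) * (2 : ℝ) ^ (s * J) := by
        rw [hT]
        push_cast
        have := hmle J
        have h0 : (0 : ℝ) ≤ 2 * (3 * J + 2) := by positivity
        calc 2 * (3 * (J : ℝ) + 2) * m J ≤ 2 * (3 * (J : ℝ) + 2) * (2 * (2 : ℝ) ^ (s * J)) :=
              mul_le_mul_of_nonneg_left this h0
          _ = (12 * J + 8) * (2 : ℝ) ^ (s * J) := by ring
      have h1 : μ.real (Ioi T) ≤ (μ (Ici T)).toReal := by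
        rw [measureReal_def]
        exact ENNReal.toReal_mono (measure_ne_top _ _) (measure_mono Ioi_subset_Ici_self)
      have h2 := (hlow T hT1).trans h1
      have hTpos : (0 : ℝ) < T := by
        have : 0 < T := by omega
        exact_mod_cast this
      have h3 : ((12 * J + 8 : ℝ) * (2 : ℝ) ^ (s * J)) ^ (-a) ≤ (T : ℝ) ^ (-a) :=
        Real.rpow_le_rpow_of_nonpos hTpos hTle (by linarith)
      have h4 : (12 * J + 8 : ℝ) ^ (-a) * (2 : ℝ) ^ ((1 - s * a) * J) =
          2 ^ J * ((12 * J + 8 : ℝ) * (2 : ℝ) ^ (s * J)) ^ (-a) := by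
        rw [Real.mul_rpow (by positivity) (by positivity), ← Real.rpow_mul (by norm_num)]
        have : (2 : ℝ) ^ ((1 - s * a) * J) = 2 ^ J * (2 : ℝ) ^ (s * J * -a) := by
          rw [← Real.rpow_natCast, ← Real.rpow_add (by norm_num)]
          congr 1
          ring
        rw [this]
        ring
      rw [h4]
      calc 2 * c * (2 ^ J * ((12 * J + 8 : ℝ) * (2 : ℝ) ^ (s * J)) ^ (-a))
          ≤ 2 * c * (2 ^ J * (T : ℝ) ^ (-a)) := by
            apply mul_le_mul_of_nonneg_left _ (by positivity)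
            exact mul_le_mul_of_nonneg_left h3 (by positivity)
        _ = 2 * 2 ^ J * (c * (T : ℝ) ^ (-a)) := by ring
        _ ≤ 2 * 2 ^ J * (μ (Ici T)).toReal := mul_le_mul_of_nonneg_left h2 (by positivity)
    rw [← ENNReal.ofReal_tsum_of_nonneg (fun n => (Real.exp_pos _).le) hsum]
    exact ENNReal.ofReal_ne_top

end main

/-! ## A law on the odd integers with power law tail -/

/-- The Pareto type law: `2 ⌊u ^ (-1/a)⌋ - 1` for a uniform random `u` in `(0,1]`. -/
noncomputable def oddLaw (a : ℝ) : Measure ℕ :=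
  (volume.restrict (Ioc (0 : ℝ) 1)).map (fun u => 2 * ⌊u ^ (-(1 / a))⌋₊ - 1)

theorem measurable_oddMap (a : ℝ) : Measurable (fun u : ℝ => 2 * ⌊u ^ (-(1 / a))⌋₊ - 1) := by
  have h1 : Measurable (fun u : ℝ => ⌊u ^ (-(1 / a))⌋₊) :=
    Nat.measurable_floor.comp (by fun_prop)
  exact (measurable_of_countable (fun n : ℕ => 2 * n - 1)).comp h1

instance (a : ℝ) : IsProbabilityMeasure (oddLaw a) := by
  have : IsProbabilityMeasure (volume.restrict (Ioc (0 : ℝ) 1)) := ⟨by simp⟩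
  exact Measure.isProbabilityMeasure_map (measurable_oddMap a).aemeasurable

theorem floor_ge {a u : ℝ} (ha : 0 < a) (hu : u ∈ Ioc (0 : ℝ) 1) : 1 ≤ ⌊u ^ (-(1 / a))⌋₊ := by
  rw [Nat.one_le_floor_iff]
  exact Real.one_le_rpow_of_pos_of_le_one_of_nonpos hu.1 hu.2 (by
    rw [neg_nonpos]; positivity)

theorem oddLaw_odd {a : ℝ} (ha : 0 < a) : ∀ᵐ k ∂(oddLaw a), Odd k := by
  unfold oddLaw
  rw [ae_map_iff (measurable_oddMap a).aemeasurable (MeasurableSet.of_discrete)]
  rw [ae_restrict_iff' measurableSet_Ioc]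
  refine Eventually.of_forall fun u hu => ?_
  have := floor_ge ha hu
  rw [Nat.odd_iff]
  omega

theorem oddLaw_tail {a : ℝ} (ha : 0 < a) (t : ℕ) :
    (oddLaw a).real (Ioi t) = (((t + 1) / 2 + 1 : ℕ) : ℝ) ^ (-a) := by
  have hset : (fun u : ℝ => 2 * ⌊u ^ (-(1 / a))⌋₊ - 1) ⁻¹' (Ioi t) ∩ Ioc (0 : ℝ) 1 =
      Ioc (0 : ℝ) ((((t + 1) / 2 + 1 : ℕ) : ℝ) ^ (-a)) := by
    ext u
    set q : ℕ := (t + 1) / 2 + 1 with hq
    have hq1 : (1 : ℝ) ≤ q := by
      have : 1 ≤ q := by omega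
      exact_mod_cast this
    have hq0 : (0 : ℝ) < q := by linarith
    have hle1 : (q : ℝ) ^ (-a) ≤ 1 := Real.rpow_le_one_of_one_le_of_nonpos hq1 (by linarith)
    simp only [mem_inter_iff, mem_preimage, mem_Ioi, mem_Ioc]
    have key : ∀ u : ℝ, 0 < u → (t < 2 * ⌊u ^ (-(1 / a))⌋₊ - 1 ↔ u ≤ (q : ℝ) ^ (-a)) := by
      intro u hu
      have h1 : t < 2 * ⌊u ^ (-(1 / a))⌋₊ - 1 ↔ q ≤ ⌊u ^ (-(1 / a))⌋₊ := by omega
      rw [h1, Nat.le_floor_iff (by positivity)]
      constructor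
      · intro h
        have h2 : (q : ℝ) ^ (-a) ≥ (u ^ (-(1 / a))) ^ (-a) :=
          Real.rpow_le_rpow_of_nonpos hq0 h (by linarith)
        rw [← Real.rpow_mul hu.le, show -(1 / a) * -a = 1 by field_simp, Real.rpow_one] at h2
        exact h2
      · intro h
        have h2 : ((q : ℝ) ^ (-a)) ^ (-(1 / a)) ≤ u ^ (-(1 / a)) :=
          Real.rpow_le_rpow_of_nonpos hu h (by rw [neg_nonpos]; positivity)
        rw [← Real.rpow_mul hq0.le, show -a * -(1 / a) = 1 by field_simp, Real.rpow_one] at h2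
        exact h2
    constructor
    · rintro ⟨h1, h2, h3⟩
      exact ⟨h2, (key u h2).1 h1⟩
    · rintro ⟨h1, h2⟩
      exact ⟨(key u h1).2 h2, h1, h2.trans hle1⟩
  unfold oddLaw
  rw [measureReal_def, Measure.map_apply (measurable_oddMap a) measurableSet_Ioi,
    Measure.restrict_apply (measurable_oddMap a measurableSet_Ioi), hset, Real.volume_Ioc,
    sub_zero, ENNReal.toReal_ofReal (by positivity)]

theorem oddLaw_moment (M : ℕ) : ∫⁻ k, (k : ℝ≥0∞) ^ M ∂(oddLaw (M + 1)) < ∞ := by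
  unfold oddLaw
  rw [lintegral_map (measurable_of_countable _) (measurable_oddMap _)]
  have hr : (-1 : ℝ) < -(1 / ((M : ℝ) + 1)) * M := by
    have : (0 : ℝ) < (M : ℝ) + 1 := by positivity
    rw [neg_mul, neg_lt_neg_iff, one_div, inv_mul_lt_iff₀ this]
    linarith
  have hint : IntegrableOn (fun u : ℝ => (2 : ℝ) ^ M * u ^ (-(1 / ((M : ℝ) + 1)) * M))
      (Ioc (0 : ℝ) 1) := by
    apply Integrable.const_mul
    have := intervalIntegral.intervalIntegrable_rpow' (a := 0) (b := 1) hr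
    rwa [intervalIntegrable_iff_integrableOn_Ioc_of_le zero_le_one] at this
  refine lt_of_le_of_lt ?_ (hint.lintegral_lt_top)
  refine setLIntegral_mono' measurableSet_Ioc fun u hu => ?_
  have h1 : ((2 * ⌊u ^ (-(1 / ((M : ℝ) + 1)))⌋₊ - 1 : ℕ) : ℝ) ≤
      2 * u ^ (-(1 / ((M : ℝ) + 1))) := by
    have h2 : ((2 * ⌊u ^ (-(1 / ((M : ℝ) + 1)))⌋₊ - 1 : ℕ) : ℝ) ≤
        ((2 * ⌊u ^ (-(1 / ((M : ℝ) + 1)))⌋₊ : ℕ) : ℝ) := by
      exact_mod_cast Nat.sub_le _ _
    refine h2.trans ?_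
    push_cast
    have h3 := Nat.floor_le (a := u ^ (-(1 / ((M : ℝ) + 1)))) (Real.rpow_nonneg hu.1.le _)
    linarith
  rw [← ENNReal.ofReal_natCast, ← ENNReal.ofReal_pow (by positivity)]
  apply ENNReal.ofReal_le_ofReal
  calc ((2 * ⌊u ^ (-(1 / ((M : ℝ) + 1)))⌋₊ - 1 : ℕ) : ℝ) ^ M
      ≤ (2 * u ^ (-(1 / ((M : ℝ) + 1)))) ^ M := pow_le_pow_left₀ (by positivity) h1 M
    _ = (2 : ℝ) ^ M * u ^ (-(1 / ((M : ℝ) + 1)) * M) := by
        rw [mul_pow, Real.rpow_mul hu.1.le, Real.rpow_natCast]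

end Pool.Agent.Helper98.MM
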